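import Pool.Agent.MP_3ce0a0_al.H79.SpecN

/-
The top cross effect is odd, and actions with small supports are trivial on even permutations.
-/

namespace Pool.Agent.MP_3ce0a0_al.H33

open Equiv Pool.Agent.MP_3ce0a0_al.H79

section Res

variable {ι W : Type} [DecidableEq ι] [Group W]

/-- restriction of sign changes and permutations to a subset of the indices. -/
def wsub (P : WS ι W) (p : ι → Prop) [DecidablePred p] : WS (Subtype p) W where
  ε a := P.ε a
  π := P.π.comp Perm.ofSubtype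
  ε_sq a := P.ε_sq a
  ε_comm a b := P.ε_comm a b
  π_ε σ a := by
    simp only [MonoidHom.comp_apply, P.π_ε, Perm.ofSubtype_apply_coe]

/-- restriction of Nielsen transformations to a subset of the indices and a subgroup. -/
def nres (N : NS ι W) (p : ι → Prop) [DecidablePred p] (G : Subgroup W)
    (hε : ∀ a, p a → N.ε a ∈ G) (hπ : ∀ σ : Perm (Subtype p), N.π (Perm.ofSubtype σ) ∈ G)
    (hρ : ∀ a b, p a → p b → a ≠ b → N.ρ a b ∈ G)
    (hl : ∀ a b, p a → p b → a ≠ b → N.lam a b ∈ G) : NS (Subtype p) G where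
  ε a := ⟨N.ε a, hε a a.2⟩
  π := (N.π.comp Perm.ofSubtype).codRestrict G hπ
  ε_sq a := Subtype.ext (N.ε_sq a)
  ε_comm a b := Subtype.ext (N.ε_comm a b)
  π_ε σ a := by
    have := N.π_ε (Perm.ofSubtype σ) a
    rw [Perm.ofSubtype_apply_coe] at this
    exact Subtype.ext this
  ρ a b := if h : a = b then 1 else ⟨N.ρ a b, hρ a b a.2 b.2 fun e => h (Subtype.ext e)⟩
  lam a b := if h : a = b then 1 else ⟨N.lam a b, hl a b a.2 b.2 fun e => h (Subtype.ext e)⟩
  π_ρ σ a b h := by
    rw [dif_neg h, dif_neg (σ.injective.ne h)]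
    have := N.π_ρ (Perm.ofSubtype σ) a b (Subtype.coe_injective.ne h)
    rw [Perm.ofSubtype_apply_coe, Perm.ofSubtype_apply_coe] at this
    exact Subtype.ext this
  π_lam σ a b h := by
    rw [dif_neg h, dif_neg (σ.injective.ne h)]
    have := N.π_lam (Perm.ofSubtype σ) a b (Subtype.coe_injective.ne h)
    rw [Perm.ofSubtype_apply_coe, Perm.ofSubtype_apply_coe] at this
    exact Subtype.ext this
  ε_right a b h := by
    rw [dif_neg h]
    exact Subtype.ext (N.ε_right a b (Subtype.coe_injective.ne h))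
  ε_left a b h := by
    rw [dif_neg h, dif_neg h]
    exact Subtype.ext (N.ε_left a b (Subtype.coe_injective.ne h))
  ε_other a b c h₁ h₂ h₃ := by
    rw [dif_neg h₁]
    exact Subtype.ext (N.ε_other a b c (Subtype.coe_injective.ne h₁) (Subtype.coe_injective.ne h₂)
      (Subtype.coe_injective.ne h₃))
  ρ_ρ a b c e h₁ h₂ h₃ h₄ h₅ := by
    rw [dif_neg h₁, dif_neg h₂]
    exact Subtype.ext (N.ρ_ρ a b c e (Subtype.coe_injective.ne h₁) (Subtype.coe_injective.ne h₂)
      (Subtype.coe_injective.ne h₃) (Subtype.coe_injective.ne h₄) (Subtype.coe_injective.ne h₅))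
  ρ_lam a b c e h₁ h₂ h₃ h₄ := by
    rw [dif_neg h₁, dif_neg h₂]
    exact Subtype.ext (N.ρ_lam a b c e (Subtype.coe_injective.ne h₁) (Subtype.coe_injective.ne h₂)
      (Subtype.coe_injective.ne h₃) (Subtype.coe_injective.ne h₄))
  lam_lam a b c e h₁ h₂ h₃ h₄ h₅ := by
    rw [dif_neg h₁, dif_neg h₂]
    exact Subtype.ext (N.lam_lam a b c e (Subtype.coe_injective.ne h₁)
      (Subtype.coe_injective.ne h₂) (Subtype.coe_injective.ne h₃) (Subtype.coe_injective.ne h₄)
      (Subtype.coe_injective.ne h₅))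
  conj_lam a b c h₁ h₂ h₃ := by
    rw [dif_neg h₁, dif_neg h₂, dif_neg h₃]
    exact Subtype.ext (N.conj_lam a b c (Subtype.coe_injective.ne h₁)
      (Subtype.coe_injective.ne h₂) (Subtype.coe_injective.ne h₃))
  conj_ρ a b c h₁ h₂ h₃ := by
    rw [dif_neg h₁, dif_neg h₂, dif_neg h₃]
    exact Subtype.ext (N.conj_ρ a b c (Subtype.coe_injective.ne h₁)
      (Subtype.coe_injective.ne h₂) (Subtype.coe_injective.ne h₃))
  gersten a b h := by
    rw [dif_neg h, dif_neg h.symm, dif_neg h]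
    refine Subtype.ext ?_
    have := N.gersten a b (Subtype.coe_injective.ne h)
    rw [← Perm.ofSubtype_swap_eq] at this
    exact this

theorem lam_eq (N : NS ι W) {a b : ι} (h : a ≠ b) : N.lam a b = (N.ε a * N.ρ a b * N.ε a)⁻¹ := by
  rw [N.ε_left a b h, inv_inv]

theorem eps_lam (N : NS ι W) {a b c : ι} (h : a ≠ b) (h₁ : c ≠ a) (h₂ : c ≠ b) :
    Commute (N.ε c) (N.lam a b) := by
  rw [lam_eq N h]
  have e : Commute (N.ε c) (N.ε a) := N.ε_comm c a
  exact ((e.mul_right (N.ε_other a b c h h₁ h₂)).mul_right e).inv_right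

end Res

section Stab

variable {H : Type} [AddCommGroup H] [Module ℂ H]

/-- automorphisms that preserve a subspace. -/
def stab (Z : Submodule ℂ H) : Subgroup (H ≃ₗ[ℂ] H) where
  carrier := {u | ∀ z, u z ∈ Z ↔ z ∈ Z}
  mul_mem' {u v} hu hv z := (hu (v z)).trans (hv z)
  one_mem' _ := Iff.rfl
  inv_mem' {u} hu z := by
    have := hu (u⁻¹ z)
    rw [← LinearEquiv.mul_apply, mul_inv_cancel] at this
    exact this.symm

theorem mem_stab [FiniteDimensional ℂ H] {Z : Submodule ℂ H} {u : H ≃ₗ[ℂ] H}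
    (h : ∀ z ∈ Z, u z ∈ Z) : u ∈ stab Z := by
  have e : Z.map (u : H →ₗ[ℂ] H) = Z :=
    Submodule.eq_of_le_of_finrank_eq (by rintro _ ⟨z, hz, rfl⟩; exact h z hz)
      (LinearEquiv.finrank_map_eq u Z)
  intro z
  refine ⟨fun k => ?_, h z⟩
  rw [← e] at k
  obtain ⟨y, hy, k⟩ := k
  exact u.injective k ▸ hy

/-- the action on an invariant subspace. -/
def onSub (Z : Submodule ℂ H) : stab Z →* (Z ≃ₗ[ℂ] Z) where
  toFun u :=
    { toFun := fun z => ⟨u.1 z, (u.2 z).2 z.2⟩
      invFun := fun z => ⟨(u⁻¹).1 z, ((u⁻¹).2 z).2 z.2⟩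
      map_add' := fun _ _ => Subtype.ext (map_add u.1 _ _)
      map_smul' := fun _ _ => Subtype.ext (map_smul u.1 _ _)
      left_inv := fun z => Subtype.ext (u.1.symm_apply_apply z)
      right_inv := fun z => Subtype.ext (u.1.apply_symm_apply z) }
  map_one' := rfl
  map_mul' _ _ := rfl

end Stab

section Top

variable {ι H Ω : Type} [Fintype ι] [DecidableEq ι] [AddCommGroup H] [Module ℂ H]
  {N : NS ι (H ≃ₗ[ℂ] H)} {P : WS ι (Perm Ω)} {j : H →ₗ[ℂ] (Ω → ℂ)}

omit [Fintype ι] in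
theorem emb_pi (hE : Emb N.toWS P j) (σ : Perm ι) (z : H) (w : Ω) :
    j (N.π σ z) w = j z (P.π σ⁻¹ w) := by
  rw [← hE.2.1 σ z (P.π σ⁻¹ w), ← Perm.mul_apply, ← map_mul, mul_inv_cancel, map_one,
    Perm.one_apply]

omit [Fintype ι] [DecidableEq ι] in
theorem eps_eps (P : WS ι (Perm Ω)) (a : ι) (w : Ω) : P.ε a (P.ε a w) = w := by
  rw [← Perm.mul_apply, P.ε_sq, Perm.one_apply]

omit [Fintype ι] in
theorem emb_eps (hE : Emb N.toWS P j) (a : ι) (z : H) (w : Ω) :
    j (N.ε a z) w = j z (P.ε a w) := by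
  rw [← hE.2.2 a z (P.ε a w), eps_eps]

/-- vectors carried by the points with a given property. -/
def car (j : H →ₗ[ℂ] (Ω → ℂ)) (q : Ω → Prop) : Submodule ℂ H where
  carrier := {z | ∀ w, j z w ≠ 0 → q w}
  add_mem' {y z} hy hz w hw := by
    by_contra k
    have h1 : j y w = 0 := by_contra fun e => k (hy w e)
    have h2 : j z w = 0 := by_contra fun e => k (hz w e)
    exact hw (by rw [map_add, Pi.add_apply, h1, h2, add_zero])
  zero_mem' w hw := absurd (by rw [map_zero]; rfl) hw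
  smul_mem' c z hz w hw := hz w fun e => hw (by rw [map_smul, Pi.smul_apply, e, smul_zero])

omit [Fintype ι] in
/-- the cross effect operator of a commuting family of permutations. -/
theorem exists_cross {κ : Type} (hE : Emb N.toWS P j) (σ : κ → Perm ι)
    (hc : ∀ t t', Commute (σ t) (σ t')) (T : Finset κ) : ∃ D : H →ₗ[ℂ] H,
      (∀ u : H ≃ₗ[ℂ] H, (∀ t, Commute u (N.π (σ t))) → ∀ z, u (D z) = D (u z)) ∧
      (∀ z w, j (D z) w ≠ 0 → ∀ t ∈ T, P.π (σ t)⁻¹ w ≠ w) ∧
      (∀ q : Ω → Prop, (∀ t ∈ T, ∀ w, q (P.π (σ t)⁻¹ w) → q w) → ∀ z ∈ car j q, D z ∈ car j q) ∧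
      ∀ z w, (∀ t ∈ T, ∃ q : Ω → Prop, (∀ t' ∈ T, t' ≠ t → ∀ w, q (P.π (σ t')⁻¹ w) → q w) ∧
        z ∈ car j q ∧ ¬q (P.π (σ t)⁻¹ w)) → j (D z) w = j z w := by
  classical
  induction T using Finset.induction_on with
  | empty => exact ⟨LinearMap.id, fun _ _ _ => rfl, by simp, fun _ _ _ hz => hz, fun _ _ _ => rfl⟩
  | insert t T ht ih =>
    obtain ⟨D, h1, h2, h3, h4⟩ := ih
    have ev : ∀ z w, j ((D - (N.π (σ t) : H →ₗ[ℂ] H) ∘ₗ D) z) w =
        j (D z) w - j (D z) (P.π (σ t)⁻¹ w) := fun z w => by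
      rw [LinearMap.sub_apply, map_sub, Pi.sub_apply, ← emb_pi hE]; rfl
    refine ⟨D - (N.π (σ t) : H →ₗ[ℂ] H) ∘ₗ D, fun u hu z => ?_, fun z w hw t' ht' k => hw ?_,
      fun q hq z hz w hw => ?_, fun z w hz => ?_⟩
    · simp only [LinearMap.sub_apply, LinearMap.comp_apply, LinearEquiv.coe_coe, map_sub]
      rw [← h1 u hu, ← LinearEquiv.mul_apply, (hu t).eq, LinearEquiv.mul_apply]
    · rw [ev]
      rcases Finset.mem_insert.1 ht' with rfl | ht'
      · rw [k, sub_self]
      · have e1 : j (D z) w = 0 := by_contra fun e => h2 z w e t' ht' k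
        have e2 : j (D z) (P.π (σ t)⁻¹ w) = 0 := by_contra fun e => h2 z _ e t' ht' (by
          rw [← Perm.mul_apply, ← map_mul, (hc t' t).inv_inv.eq, map_mul, Perm.mul_apply, k])
        rw [e1, e2, sub_self]
    · have k := h3 q (fun t' ht' => hq t' (Finset.mem_insert_of_mem ht')) z hz
      by_contra hn
      have e1 : j (D z) w = 0 := by_contra fun e => hn (k w e)
      have e2 : j (D z) (P.π (σ t)⁻¹ w) = 0 :=
        by_contra fun e => hn (hq t (Finset.mem_insert_self _ _) w (k _ e))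
      exact hw (by rw [ev, e1, e2, sub_self])
    · obtain ⟨q, q1, q2, q3⟩ := hz t (Finset.mem_insert_self _ _)
      have e2 : j (D z) (P.π (σ t)⁻¹ w) = 0 := by_contra fun e => q3 (h3 q (fun t' ht' =>
        q1 t' (Finset.mem_insert_of_mem ht') fun e' => ht (e' ▸ ht')) z q2 _ e)
      rw [ev, e2, sub_zero]
      refine h4 z w fun t' ht' => ?_
      obtain ⟨q, q1, q2⟩ := hz t' (Finset.mem_insert_of_mem ht')
      exact ⟨q, fun t'' k => q1 t'' (Finset.mem_insert_of_mem k), q2⟩

omit [Fintype ι] in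
/-- disjoint three-cycles through the points of `I`, otherwise outside `S`. -/
theorem exists_cycles [Fintype ι] (I S : Finset ι) (hI : I ⊆ S)
    (hc : S.card + 2 * I.card ≤ Fintype.card ι) :
    ∃ (σ : I → Perm ι) (c : I → ι), (∀ t, Perm.sign (σ t) = 1) ∧ (∀ t, c t ∉ S) ∧
      (∀ t, σ t (c t) = t) ∧ (∀ t t', t' ≠ t → σ t' (c t) = c t) ∧
      (∀ t t', t ≠ t' → Perm.Disjoint (σ t) (σ t')) ∧ ∀ t, ∀ a ∈ S, a ∉ I → σ t a = a := by
  have hcard : Fintype.card (I × Bool) ≤ Fintype.card (Sᶜ : Finset ι) := by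
    simp only [Fintype.card_prod, Fintype.card_coe, Fintype.card_bool, Finset.card_compl]
    omega
  obtain ⟨e⟩ := Function.Embedding.nonempty_of_card_le hcard
  let g : I × Bool → ι := fun x => (e x).1
  have gS : ∀ x, g x ∉ S := fun x => Finset.mem_compl.1 (e x).2
  have gi : Function.Injective g := fun x y k => e.injective (Subtype.ext k)
  have gt : ∀ (t : I) x, g x ≠ t := fun t x k => gS x (k ▸ hI t.2)
  have fix : ∀ (t : I) (a : ι), a ≠ t → a ≠ g (t, true) → a ≠ g (t, false) →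
      (swap (t : ι) (g (t, true)) * swap (g (t, true)) (g (t, false))) a = a := fun t a h1 h2 h3 => by
    rw [Perm.mul_apply, swap_apply_of_ne_of_ne h2 h3, swap_apply_of_ne_of_ne h1 h2]
  have other : ∀ t t' : I, t' ≠ t → ∀ b, g (t, b) ≠ t' ∧ g (t, b) ≠ g (t', true) ∧
      g (t, b) ≠ g (t', false) := fun t t' h b =>
    ⟨gt t' _, fun k => h (congrArg Prod.fst (gi k)).symm, fun k => h (congrArg Prod.fst (gi k)).symm⟩
  refine ⟨fun t => swap (t : ι) (g (t, true)) * swap (g (t, true)) (g (t, false)),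
    fun t => g (t, false), fun t => ?_, fun t => gS _, fun t => ?_, fun t t' h => ?_,
    fun t t' h a => ?_, fun t a ha hI' => ?_⟩
  · rw [map_mul, Perm.sign_swap (gt t _).symm, Perm.sign_swap (gi.ne (by simp))]
    simp
  · rw [Perm.mul_apply, swap_apply_right, swap_apply_right]
  · obtain ⟨k1, k2, k3⟩ := other t t' h false
    exact fix t' _ k1 k2 k3
  · by_cases h1 : a = t
    · refine Or.inr (fix t' a (fun k => h (Subtype.ext (h1.symm.trans k))) ?_ ?_) <;>
        exact h1 ▸ (gt t _).symm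
    · by_cases h2 : ∃ b, a = g (t, b)
      · obtain ⟨b, rfl⟩ := h2
        obtain ⟨k1, k2, k3⟩ := other t t' h.symm b
        exact Or.inr (fix t' _ k1 k2 k3)
      · exact Or.inl (fix t a h1 (fun k => h2 ⟨_, k⟩) fun k => h2 ⟨_, k⟩)
  · exact fix t a (fun k => hI' (k ▸ t.2)) (fun k => gS _ (k ▸ ha)) fun k => gS _ (k ▸ ha)

omit [Fintype ι] in
theorem mem_supp [Fintype ι] {k : ℕ} {s : Ω → Finset ι} (hs : Supp P k s) (σ : Perm ι) (w : Ω)
    (a : ι) : a ∈ s (P.π σ⁻¹ w) ↔ σ a ∈ s w := by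
  rw [hs.2.2.2.1, Finset.mem_map_equiv]
  rfl

open Classical in
/-- the unique element of a finite set with a given property, if there is one. -/
noncomputable def only {α : Type} (q : α → Prop) : Option α :=
  if h : ∃ a, ∀ b, q b ↔ b = a then some h.choose else none

theorem only_eq_some {α : Type} {q : α → Prop} {a : α} : only q = some a ↔ ∀ b, q b ↔ b = a := by
  unfold only
  split_ifs with h
  · rw [Option.some.injEq]
    exact ⟨fun e => e ▸ h.choose_spec, fun e => ((e _).1 ((h.choose_spec _).2 rfl))⟩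
  · exact ⟨fun e => (by cases e), fun e => absurd ⟨a, e⟩ h⟩

theorem only_map {α : Type} {q q' : α → Prop} (σ : Perm α) (h : ∀ a, q' (σ a) ↔ q a) :
    only q' = (only q).map σ := by
  ext a
  simp only [only_eq_some, Option.map_eq_some_iff]
  refine ⟨fun k => ⟨σ.symm a, fun b => ?_, σ.apply_symm_apply a⟩, ?_⟩
  · rw [← h, k, Equiv.eq_symm_apply]
  · rintro ⟨a, k, rfl⟩ b
    obtain ⟨b, rfl⟩ := σ.surjective b
    rw [h, k, σ.apply_eq_iff_eq]

end Top

theorem stop (hD : SDegC) : STop := by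
  intro ι H Ω _ _ _ _ _ N P j k d s S hE hs hk hk' hd hS a' ha' h hh ω i f hω hi hf
  have hsε : ∀ a w, s (P.ε a w) = s w := hs.2.2.2.2
  by_cases hI : s ω ⊆ S.erase a'
  swap
  · have e1 : j h ω = 0 := by_contra fun e => hI (hh ω e)
    have e2 : j h (P.ε i (P.ε f ω)) = 0 := by_contra fun e => hI (by
      simpa only [hsε] using hh _ e)
    rw [e1, e2, neg_zero]
  have hIS : s ω ⊆ S := hI.trans (Finset.erase_subset _ _)
  have ha'I : a' ∉ s ω := fun e => Finset.notMem_erase a' S (hI e)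
  have hlt := hs.1 ω
  obtain ⟨I, hIdef⟩ : ∃ I, I = (s ω).erase i := ⟨_, rfl⟩
  have memI : ∀ a, a ∈ I ↔ a ≠ i ∧ a ∈ s ω := fun a => by rw [hIdef, Finset.mem_erase]
  have cardI : I.card + 1 = d := by rw [hIdef, Finset.card_erase_add_one hi, hω]
  have IS : I ⊆ S := fun a ha => hIS ((memI a).1 ha).2
  obtain ⟨σ, c, s1, s2, s3, s4, s5, s6⟩ := exists_cycles I S IS (by omega)
  have hcm : ∀ t t', Commute (σ t) (σ t') := fun t t' => by
    by_cases e : t = t'
    · rw [e]
    · exact (s5 t t' e).commute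
  obtain ⟨D, d1, d2, d3, d4⟩ := exists_cross hE σ hcm Finset.univ
  let p : ι → Prop := fun a => a ∈ S ∧ a ∉ I
  let Z : Submodule ℂ H := (car j fun w => s w ⊆ S).map D
  have st : ∀ u : H ≃ₗ[ℂ] H, (∀ t, Commute u (N.π (σ t))) →
      (∀ z ∈ car j fun w => s w ⊆ S, u z ∈ car j fun w => s w ⊆ S) → u ∈ stab Z := fun u h1 h2 =>
    mem_stab (by
      rintro _ ⟨z, hz, rfl⟩
      exact ⟨u z, h2 z hz, (d1 u h1 z).symm⟩)
  have hε : ∀ a, p a → N.ε a ∈ stab Z := fun a ha => st _
    (fun t => by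
      have := N.π_ε (σ t) a
      rw [s6 t a ha.1 ha.2] at this
      exact this.symm)
    fun z hz w hw => by
      rw [emb_eps hE] at hw
      simpa only [hsε] using hz _ hw
  have hπ : ∀ τ : Perm (Subtype p), N.π (Perm.ofSubtype τ) ∈ stab Z := fun τ => st _
    (fun t => Commute.map (Perm.Disjoint.commute fun a => by
      by_cases e : p a
      · exact Or.inr (s6 t a e.1 e.2)
      · exact Or.inl (Perm.ofSubtype_apply_of_not_mem τ e)) N.π)
    fun z hz w hw a ha => by
      rw [emb_pi hE] at hw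
      by_cases e : p a
      · exact e.1
      · refine hz _ hw ((mem_supp hs _ w a).2 ?_)
        rwa [Perm.ofSubtype_apply_of_not_mem τ e]
  have hρ : ∀ a b, p a → p b → a ≠ b → N.ρ a b ∈ stab Z := fun a b ha hb hab => st _
    (fun t => by
      have := N.π_ρ (σ t) a b hab
      rw [s6 t a ha.1 ha.2, s6 t b hb.1 hb.2] at this
      exact this.symm)
    fun z hz => (hS a ha.1 b hb.1 hab z hz).1
  have hl : ∀ a b, p a → p b → a ≠ b → N.lam a b ∈ stab Z := fun a b ha hb hab => st _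
    (fun t => by
      have := N.π_lam (σ t) a b hab
      rw [s6 t a ha.1 ha.2, s6 t b hb.1 hb.2] at this
      exact this.symm)
    fun z hz => (hS a ha.1 b hb.1 hab z hz).2
  have cardp : 12 ≤ Fintype.card (Subtype p) := by
    have e : Fintype.card (Subtype p) = (S \ I).card :=
      Fintype.card_of_subtype _ fun a => Finset.mem_sdiff
    have := Finset.card_sdiff_add_card_eq_card IS
    omega
  have uniq : ∀ z w, j (D z) w ≠ 0 → ∀ a b, p a → p b → a ∈ s w → b ∈ s w → a = b := by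
    intro z w hw a b ha hb ha1 hb1
    by_contra hab
    have m0 : ∀ t : I, ∃ m ∈ s w, σ t m ≠ m := fun t => by
      by_contra hn
      push Not at hn
      refine d2 z w hw t (Finset.mem_univ _) ((hs.2.1 w).1 _ (by rw [map_inv, s1, inv_one])
        fun a ha => ?_)
      rw [Perm.inv_eq_iff_eq]
      exact (hn a (by simpa using ha)).symm
    choose m m1 m2 using m0
    have mi : Function.Injective m := fun t t' e => by
      by_contra hne
      rcases s5 t t' hne (m t) with k | k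
      · exact m2 t k
      · exact m2 t' (e ▸ k)
    have h1 : (Finset.univ.image m).card = I.card := by
      rw [Finset.card_image_of_injective _ mi, Finset.card_univ, Fintype.card_coe]
    have h2 : ∀ x, p x → x ∉ Finset.univ.image m := fun x hx k => by
      obtain ⟨t, -, rfl⟩ := Finset.mem_image.1 k
      exact m2 t (s6 t _ hx.1 hx.2)
    have h3 : insert a (insert b (Finset.univ.image m)) ⊆ s w :=
      Finset.insert_subset ha1 (Finset.insert_subset hb1 fun x k => by
        obtain ⟨t, -, rfl⟩ := Finset.mem_image.1 k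
        exact m1 t)
    have h4 := Finset.card_le_card h3
    rw [Finset.card_insert_of_notMem (by simp only [Finset.mem_insert, not_or]; exact ⟨hab, h2 a ha⟩),
      Finset.card_insert_of_notMem (h2 b hb), h1] at h4
    have := hd _ w hw
    omega
  obtain ⟨-, -, key, -⟩ := hD (Subtype p) Z Ω ((nres N p (stab Z) hε hπ hρ hl).map (onSub Z))
    (wsub P p) (j ∘ₗ Z.subtype) (fun w => only fun a : Subtype p => a.1 ∈ s w) cardp
    ⟨hE.1.comp Subtype.coe_injective, fun τ z w => hE.2.1 (Perm.ofSubtype τ) z w,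
      fun a z w => hE.2.2 a z w⟩
    (fun τ w => only_map τ fun a => by
      change (τ a).1 ∈ s (P.π (Perm.ofSubtype τ) w) ↔ _
      rw [hs.2.2.2.1, ← Perm.ofSubtype_apply_coe]
      exact Finset.mem_map' _)
    (fun a w => by
      change (only fun b : Subtype p => b.1 ∈ s (P.ε a w)) = _
      rw [hsε])
    (by
      rintro ⟨_, z, hz, rfl⟩ w hw
      have out : ∀ a : Subtype p, (only fun b : Subtype p => b.1 ∈ s w) ≠ some a → a.1 ∉ s w :=
        fun a k ha => k (only_eq_some.2 fun b =>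
          ⟨fun hb => Subtype.ext (uniq z w hw b a b.2 a.2 hb ha), fun e => e ▸ ha⟩)
      refine ⟨fun τ h1 h2 => (hs.2.1 w).1 (Perm.ofSubtype τ) (by rw [Perm.sign_ofSubtype, h1])
        fun a ha => ?_, fun a ha b hb => (hs.2.1 w).2 a (Finset.mem_compl.2 (out a (by simpa using ha)))
          b (Finset.mem_compl.2 (out b (by simpa using hb)))⟩
      by_cases e : p a
      · rw [Perm.ofSubtype_apply_of_mem τ e, h2 ⟨a, e⟩ fun k =>
          out ⟨a, e⟩ (by simpa using k) (by simpa using ha)]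
      · exact Perm.ofSubtype_apply_of_not_mem τ e)
  have hhS : h ∈ car j fun w => s w ⊆ S := fun w hw => (hh w hw).trans (Finset.erase_subset _ _)
  have pa' : p a' := ⟨ha', fun e => ha'I ((memI a').1 e).2⟩
  have pi : p i := ⟨hIS hi, fun e => ((memI i).1 e).1 rfl⟩
  have ev : ∀ w, s w = s ω → j (D h) w = j h w := fun w hw => d4 h w fun t _ =>
    ⟨fun w => c t ∉ s w, fun t' _ e w k k' => k ((mem_supp hs _ w _).2 ((s4 t t' e).symm ▸ k')),
      fun w k k' => s2 t (hhS w k k'), fun k => k ((mem_supp hs _ w _).2 (by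
        rw [s3, hw]; exact ((memI t).1 t.2).2))⟩
  have k1 := key ⟨D h, h, hhS, rfl⟩ ⟨a', pa'⟩ (fun w hw k =>
      d3 (fun w => a' ∉ s w) (fun t _ w k k' => k ((mem_supp hs _ w _).2
        ((s6 t a' pa'.1 pa'.2).symm ▸ k'))) h (fun w k k' => Finset.notMem_erase a' S (hh w k k'))
        w hw ((only_eq_some.1 k ⟨a', pa'⟩).2 rfl))
    ω ⟨i, pi⟩ ⟨a', pa'⟩ (only_eq_some.2 fun b => ⟨fun hb => Subtype.ext (by
      by_contra e
      exact b.2.2 ((memI b).2 ⟨e, hb⟩)), fun e => e ▸ hi⟩)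
    (fun e => by
      have e' : a' = i := congrArg Subtype.val e
      exact ha'I (by rw [e']; exact hi))
  have k2 : j (D h) (P.ε i (P.ε a' ω)) = -j (D h) ω := k1
  rw [ev _ (by rw [hsε, hsε]), ev _ rfl] at k2
  have k3 : P.ε f ω = P.ε a' ω := by
    have := (hs.2.1 ω).2 f (Finset.mem_compl.2 hf) a' (Finset.mem_compl.2 ha'I)
    conv_lhs => rw [← this, eps_eps]
  rw [k3, k2]

/-- the permutation representation on functions. -/
noncomputable def permRep (Ω : Type) : Perm Ω →* ((Ω → ℂ) ≃ₗ[ℂ] (Ω → ℂ)) where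
  toFun g := LinearEquiv.funCongrLeft ℂ ℂ g⁻¹
  map_one' := rfl
  map_mul' _ _ := rfl

theorem permRep_apply {Ω : Type} (g : Perm Ω) (z : Ω → ℂ) (w : Ω) :
    permRep Ω g z w = z (g⁻¹ w) := rfl

theorem ssmall (h1 : SSupp) (h2 : STop) : SSmall := by
  classical
  intro ι Ω _ _ _ N k hk hX σ hσ ω
  obtain ⟨s, hs⟩ := h1 ι Ω N.toWS k (by omega) hX
  have := Fintype.ofFinite Ω
  obtain ⟨ω0, -, h0⟩ := Finset.exists_max_image Finset.univ (fun w => (s w).card)
    ⟨ω, Finset.mem_univ _⟩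
  rcases (s ω0).eq_empty_or_nonempty with e | ⟨i, hi⟩
  · have e' : s ω = ∅ := Finset.card_eq_zero.1 (by
      have := h0 ω (Finset.mem_univ _)
      rw [e, Finset.card_empty] at this
      omega)
    exact (hs.2.1 ω).1 σ hσ fun a ha => by simp [e'] at ha
  exfalso
  have hlt := hs.1 ω0
  obtain ⟨S, S1, -, S2⟩ := Finset.exists_subsuperset_card_eq (n := k + 12)
    (Finset.subset_univ (s ω0)) (by omega) (by rw [Finset.card_univ]; omega)
  obtain ⟨a', ha', ha''⟩ := Finset.exists_mem_notMem_of_card_lt_card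
    (show (s ω0).card < S.card by omega)
  have pres : ∀ g : Perm Ω, (∀ τ : Perm ι, (∀ a ∈ S, τ a = a) → Commute (N.π τ) g) →
      (∀ c, c ∉ S → Commute (N.ε c) g) → ∀ w, s (g⁻¹ w) ⊆ S → s w ⊆ S := by
    intro g g1 g2 w hw
    obtain ⟨w, rfl⟩ := g.surjective w
    have hg : g⁻¹ (g w) = w := g.symm_apply_apply w
    rw [hg] at hw
    have hF : Fx N.toWS (g w) Sᶜ := by
      refine ⟨fun τ k1 k2 => ?_, fun a ha b hb => ?_⟩
      · rw [← Perm.mul_apply, (g1 τ fun a ha => k2 a (by simpa using ha)).eq, Perm.mul_apply,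
          (hs.2.1 w).1 τ k1 fun a ha => k2 a (by simpa using hw (by simpa using ha))]
      · have ha1 := Finset.mem_compl.1 ha
        have hb1 := Finset.mem_compl.1 hb
        rw [← Perm.mul_apply (N.ε b), (g2 b hb1).eq, Perm.mul_apply, ← Perm.mul_apply (N.ε a),
          (g2 a ha1).eq, Perm.mul_apply, (hs.2.1 w).2 a (Finset.mem_compl.2 fun e => ha1 (hw e))
            b (Finset.mem_compl.2 fun e => hb1 (hw e))]
    have := hs.2.2.1 (g w) Sᶜ (by rw [Finset.card_compl]; omega) hF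
    exact fun a ha => by_contra fun e => Finset.disjoint_left.1 this ha (Finset.mem_compl.2 e)
  have key := h2 ι (Ω → ℂ) Ω (N.map (permRep Ω)) N.toWS LinearMap.id k (s ω0).card s S
    ⟨fun _ _ e => e, fun τ z w => congrArg z ((N.π τ).symm_apply_apply w),
      fun a z w => congrArg z ((N.ε a).symm_apply_apply w)⟩ hs S2.ge (by omega)
    (fun _ w _ => h0 w (Finset.mem_univ _))
    (fun a ha b hb hab z hz => ⟨fun w hw => pres (N.ρ a b)
      (fun τ k => by
        have := N.π_ρ τ a b hab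
        rwa [k a ha, k b hb] at this)
      (fun c hc => N.ε_other a b c hab (fun e => hc (e ▸ ha)) fun e => hc (e ▸ hb)) w (hz _ hw),
      fun w hw => pres (N.lam a b)
      (fun τ k => by
        have := N.π_lam τ a b hab
        rwa [k a ha, k b hb] at this)
      (fun c hc => eps_lam N hab (fun e => hc (e ▸ ha)) fun e => hc (e ▸ hb)) w (hz _ hw)⟩)
    a' ha' (Pi.single ω0 1) (fun w hw => by
      have e : w = ω0 := by_contra fun e => hw (Pi.single_eq_of_ne e _)
      rw [e]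
      exact fun a ha => Finset.mem_erase.2 ⟨fun e => ha'' (e ▸ ha), S1 ha⟩)
    ω0 i a' rfl hi ha''
  simp only [LinearMap.id_apply, Pi.single_eq_same, Pi.single_apply] at key
  split_ifs at key <;> norm_num at key

end Pool.Agent.MP_3ce0a0_al.H33
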