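import Pool.Agent.MP_3ce0a0_al.H79.XS
import Pool.Agent.MP_3ce0a0_al.H79.XJ

/-
Steinberg involutions act trivially on small invariant subspaces.
-/

namespace Pool.Agent.MP_3ce0a0_al.H33

open Module Finset Matrix Pool.Agent.MP_3ce0a0_al.H79.X

lemma z2 (c : ZMod 2) : c = 0 ∨ c = 1 := by
  revert c
  decide

lemma z2_eq : ∀ x y : ZMod 2, x + y = 0 → x = y := by decide

section comb
variable {n : Type} [Fintype n] [DecidableEq n]

lemma diag_one (D : n → ZMod 2) (hD : det (diagonal D) ≠ 0) : diagonal D = 1 := by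
  rw [det_diagonal, prod_ne_zero_iff] at hD
  have : D = fun _ => 1 := funext fun i => (z2 (D i)).resolve_left (hD i (mem_univ i))
  rw [this, diagonal_one]

lemma gl_left {T : Finset (Matrix n n (ZMod 2))}
    (hr : ∀ M ∈ T, ∀ i j, i ≠ j → transvection i j 1 * M ∈ T) (g : Matrix n n (ZMod 2))
    (hg : g.det ≠ 0) : ∀ M ∈ T, g * M ∈ T := by
  refine diagonal_transvection_induction_of_det_ne_zero (fun g => ∀ M ∈ T, g * M ∈ T) g hg
    ?_ ?_ ?_
  · intro D hD M hM
    rw [diag_one D hD, Matrix.one_mul]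
    exact hM
  · rintro ⟨i, j, hij, c⟩ M hM
    rw [TransvectionStruct.toMatrix_mk]
    rcases z2 c with rfl | rfl
    · rw [transvection_zero, Matrix.one_mul]
      exact hM
    · exact hr M hM i j hij
  · intro A B _ _ hA hB M hM
    rw [Matrix.mul_assoc]
    exact hA _ (hB _ hM)

lemma gl_right {T : Finset (Matrix n n (ZMod 2))}
    (hr : ∀ M ∈ T, ∀ i j, i ≠ j → M * transvection i j 1 ∈ T) (g : Matrix n n (ZMod 2))
    (hg : g.det ≠ 0) : ∀ M ∈ T, M * g ∈ T := by
  refine diagonal_transvection_induction_of_det_ne_zero (fun g => ∀ M ∈ T, M * g ∈ T) g hg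
    ?_ ?_ ?_
  · intro D hD M hM
    rw [diag_one D hD, Matrix.mul_one]
    exact hM
  · rintro ⟨i, j, hij, c⟩ M hM
    rw [TransvectionStruct.toMatrix_mk]
    rcases z2 c with rfl | rfl
    · rw [transvection_zero, Matrix.mul_one]
      exact hM
    · exact hr M hM i j hij
  · intro A B _ _ hA hB M hM
    rw [← Matrix.mul_assoc]
    exact hB _ (hA _ hM)

lemma exists_gl {κ : Type} {u w : κ → n → ZMod 2} (hu : LinearIndependent (ZMod 2) u)
    (hw : LinearIndependent (ZMod 2) w) :
    ∃ g : Matrix n n (ZMod 2), g.det ≠ 0 ∧ ∀ k, g *ᵥ u k = w k := by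
  obtain ⟨g, hg⟩ := Submodule.exists_linearEquiv_restrict_eq
    (hu.linearCombinationEquiv.symm ≪≫ₗ hw.linearCombinationEquiv)
  refine ⟨LinearMap.toMatrix' g.toLinearMap, ?_, fun k => ?_⟩
  · rw [LinearMap.det_toMatrix']
    exact g.isUnit_det'.ne_zero
  · have q : u k = hu.linearCombinationEquiv (Finsupp.single k 1) := by simp
    rw [LinearMap.toMatrix'_mulVec, LinearEquiv.coe_coe, q, ← hg]
    simp

omit [Fintype n] [DecidableEq n] in
lemma li_two {u w : n → ZMod 2} (hu : u ≠ 0) (hw : w ≠ 0) (h : u ≠ w) :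
    LinearIndependent (ZMod 2) ![u, w] := by
  refine LinearIndependent.pair_iff.2 fun s t e => ?_
  rcases z2 s with rfl | rfl <;> rcases z2 t with rfl | rfl
  · exact ⟨rfl, rfl⟩
  · exact absurd (by simpa using e) hw
  · exact absurd (by simpa using e) hu
  · refine absurd (funext fun i => ?_) h
    have := congrFun e i
    simp only [one_smul, Pi.add_apply, Pi.zero_apply] at this
    exact z2_eq _ _ this

omit [Fintype n] [DecidableEq n] in
lemma li_one {u : n → ZMod 2} (hu : u ≠ 0) : LinearIndependent (ZMod 2) fun _ : Unit => u :=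
  linearIndependent_unique_iff.2 hu

omit [Fintype n] [DecidableEq n] in
lemma vmv_inj {u w u' w' : n → ZMod 2} (hu : u ≠ 0) (hw : w ≠ 0)
    (e : vecMulVec u w = vecMulVec u' w') : u = u' ∧ w = w' := by
  obtain ⟨i, hi⟩ := Function.ne_iff.1 hu
  obtain ⟨j, hj⟩ := Function.ne_iff.1 hw
  have hi' : u i = 1 := (z2 _).resolve_left hi
  have hj' : w j = 1 := (z2 _).resolve_left hj
  have e' : ∀ a b, u a * w b = u' a * w' b := fun a b => by
    simpa [vecMulVec_apply] using congrFun (congrFun e a) b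
  have k := e' i j
  rw [hi', hj', mul_one] at k
  have k1 : u' i = 1 := (z2 _).resolve_left fun h0 => by simp [h0] at k
  have k2 : w' j = 1 := (z2 _).resolve_left fun h0 => by simp [h0] at k
  exact ⟨funext fun a => by simpa [hj', k2] using e' a j,
    funext fun b => by simpa [hi', k1] using e' i b⟩

lemma card_pairs : ((univ.erase (0 : n → ZMod 2)).offDiag).card =
    (2 ^ Fintype.card n - 1) * (2 ^ Fintype.card n - 2) := by
  rw [offDiag_card, card_erase_of_mem (mem_univ _), card_univ, Fintype.card_fun, ZMod.card,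
    show 2 ^ Fintype.card n - 2 = 2 ^ Fintype.card n - 1 - 1 from by omega]
  generalize 2 ^ Fintype.card n - 1 = N
  rw [Nat.mul_sub_one]

lemma core {T : Finset (Matrix n n (ZMod 2))}
    (hr : ∀ M ∈ T, ∀ i j, i ≠ j → transvection i j 1 * M ∈ T)
    (hc : ∀ M ∈ T, ∀ i j, i ≠ j → M * transvection i j 1 ∈ T)
    {M : Matrix n n (ZMod 2)} (hM : M ∈ T) {i0 j0 : n} (h0 : M i0 j0 = 1) :
    (2 ^ Fintype.card n - 1) * (2 ^ Fintype.card n - 2) ≤ T.card := by
  rw [← card_pairs]
  have hu : M.col j0 ≠ 0 := fun e => by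
    have : M i0 j0 = 0 := congrFun e i0
    rw [h0] at this
    exact one_ne_zero this
  have mem : ∀ p ∈ (univ.erase (0 : n → ZMod 2)).offDiag, p.1 ≠ 0 ∧ p.2 ≠ 0 ∧ p.1 ≠ p.2 :=
    fun p hp => by
      obtain ⟨a, b, c⟩ := mem_offDiag.1 hp
      exact ⟨ne_of_mem_erase a, ne_of_mem_erase b, c⟩
  by_cases h2 : ∃ j, M.col j ≠ 0 ∧ M.col j0 ≠ M.col j
  · obtain ⟨j, hj, hne⟩ := h2
    refine card_le_card_of_surjOn (fun N => (N.col j0, N.col j)) fun p hp => ?_
    obtain ⟨a, b, c⟩ := mem p hp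
    obtain ⟨g, hg, e⟩ := exists_gl (li_two hu hj hne) (li_two a b c)
    exact ⟨g * M, gl_left hr g hg M hM, Prod.ext (e 0) (e 1)⟩
  · push Not at h2
    have hw : M.row i0 ≠ 0 := fun e => by
      have : M i0 j0 = 0 := congrFun e j0
      rw [h0] at this
      exact one_ne_zero this
    have hM' : M = vecMulVec (M.col j0) (M.row i0) := by
      ext a b
      rw [vecMulVec_apply]
      change M a b = M a j0 * M i0 b
      by_cases hb : M.col b = 0
      · have e1 : M a b = 0 := congrFun hb a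
        have e2 : M i0 b = 0 := congrFun hb i0
        rw [e1, e2, mul_zero]
      · have e1 : M a j0 = M a b := congrFun (h2 b hb) a
        have e2 : M i0 j0 = M i0 b := congrFun (h2 b hb) i0
        rw [e1, ← e2, h0, mul_one]
    refine card_le_card_of_injOn (fun p => vecMulVec p.1 p.2) (fun p hp => ?_) fun p hp q _ e => ?_
    · obtain ⟨a, b, -⟩ := mem p hp
      obtain ⟨g, hg, e⟩ := exists_gl (li_one hu) (li_one a)
      obtain ⟨g', hg', e'⟩ := exists_gl (li_one hw) (li_one b)
      have := gl_right hc g'ᵀ (by rwa [det_transpose]) _ (gl_left hr g hg M hM)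
      rw [hM', mul_vecMulVec, vecMulVec_mul, vecMul_transpose, e (), e' ()] at this
      exact this
    · obtain ⟨a, b, -⟩ := mem p hp
      exact Prod.ext (vmv_inj a b e).1 (vmv_inj a b e).2

end comb

/-- the sign of a residue. -/
noncomputable def sz (c : ZMod 2) : ℂ := if c = 1 then -1 else 1

lemma sz_add (c d : ZMod 2) : sz (c + d) = sz c * sz d := by
  have h1 : (0 : ZMod 2) ≠ 1 := by decide
  have h2 : (1 : ZMod 2) + 1 = 0 := by decide
  rcases z2 c with rfl | rfl <;> rcases z2 d with rfl | rfl <;> simp [sz, h1, h2]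

section lin
variable {H : Type} [AddCommGroup H] [Module ℂ H]

lemma move {Q : Submodule ℂ H} {y : End ℂ H} (hy : y * y = 1) (hk : Keeps y Q) {v : H}
    (hv : v ∈ Q) (h0 : v ≠ 0) : y v ∈ Q ∧ y v ≠ 0 :=
  ⟨hk v hv, fun e => h0 (by rw [← End.one_apply (R := ℂ) v, ← hy, End.mul_apply, e, map_zero])⟩

lemma ev_comm {y z : End ℂ H} (h : Commute z y) {v : H} {c : ℂ} (e : z v = c • v) :
    z (y v) = c • y v := by
  rw [← End.mul_apply, h.eq, End.mul_apply, e, map_smul]

lemma ev_conj {y z z' : End ℂ H} (hy : y * y = 1) (h : y * z * y = z * z') {v : H} {c d : ℂ}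
    (e : z v = c • v) (e' : z' v = d • v) : z (y v) = (c * d) • y v := by
  have : z * y = y * (z * z') := by rw [← h, ← mul_assoc, ← mul_assoc, hy, one_mul]
  rw [← End.mul_apply, this, End.mul_apply, End.mul_apply, e', map_smul, e, smul_smul, map_smul,
    mul_comm]

end lin

theorem smat : SMat := by
  classical
  intro H _ _ _ ι _ _ s Q h hc h2 ⟨s1, s2, s3⟩ hk hd a b hab
  obtain ⟨i0⟩ : Nonempty (Fin h) := ⟨⟨0, by omega⟩⟩
  obtain ⟨e0⟩ : Nonempty (Fin h ⊕ Fin h ≃ ι) := Fintype.card_eq.1 (by simp [hc, two_mul])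
  obtain ⟨σ, hσ⟩ := Equiv.Perm.exists_extending_pair
    (f := fun t : Bool => if t then e0 (.inl i0) else e0 (.inr i0))
    (g := fun t : Bool => if t then a else b)
    (fun x y e => by cases x <;> cases y <;> simp_all)
    (fun x y e => by cases x <;> cases y <;> simp_all)
  let e := e0.trans σ
  let α : Fin h → ι := fun i => e (.inl i)
  let β : Fin h → ι := fun i => e (.inr i)
  have ha : α i0 = a := hσ true
  have hb : β i0 = b := hσ false
  have ab : ∀ i j, α i ≠ β j := fun i j k => by simpa using e.injective k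
  have aa : ∀ i j, i ≠ j → α i ≠ α j := fun i j k l => k (by simpa using e.injective l)
  have bb : ∀ i j, i ≠ j → β i ≠ β j := fun i j k l => k (by simpa using e.injective l)
  let x : Fin h × Fin h → End ℂ H := fun p => s (α p.1) (β p.2)
  let T : Finset (Matrix (Fin h) (Fin h) (ZMod 2)) :=
    univ.filter fun M => ∃ v ∈ Q, v ≠ 0 ∧ ∀ i j, s (α i) (β j) v = sz (M i j) • v
  have hT : ∀ M, M ∈ T ↔ ∃ v ∈ Q, v ≠ 0 ∧ ∀ i j, s (α i) (β j) v = sz (M i j) • v := fun M => by
    simp only [T, mem_filter, mem_univ, true_and]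
  let supp : Matrix (Fin h) (Fin h) (ZMod 2) → Finset (Fin h × Fin h) :=
    fun M => univ.filter fun p => M p.1 p.2 = 1
  have hs : ∀ M p, sgn (supp M) p = sz (M p.1 p.2) := fun M p => by simp [sgn, sz, supp]
  have hinj : Function.Injective supp := fun M N k => by
    ext i j
    have : M i j = 1 ↔ N i j = 1 := by simpa [supp] using Finset.ext_iff.1 k (i, j)
    rcases z2 (M i j) with k1 | k1 <;> rcases z2 (N i j) with k2 | k2 <;> simp_all
  have hle : T.card ≤ finrank ℂ Q := by
    rw [← card_image_of_injective T hinj]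
    refine JE_card_le (x := x) (S := univ) _ fun I hI => ⟨subset_univ _, ?_⟩
    obtain ⟨M, hM, rfl⟩ := mem_image.1 hI
    obtain ⟨v, hv, h0, ev⟩ := (hT M).1 hM
    exact (Submodule.ne_bot_iff _).2
      ⟨v, ⟨hv, mem_JE'.2 fun p _ => by rw [hs]; exact ev p.1 p.2⟩, h0⟩
  have hr : ∀ M ∈ T, ∀ i j, i ≠ j → transvection i j 1 * M ∈ T := fun M hM i j hij => by
    obtain ⟨v, hv, h0, ev⟩ := (hT M).1 hM
    have n1 := aa j i hij.symm
    obtain ⟨m1, m2⟩ := move (s1 _ _ n1) (hk _ _ n1) hv h0
    refine (hT _).2 ⟨_, m1, m2, fun k l => ?_⟩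
    by_cases hki : k = i
    · subst hki
      rw [transvection_mul_apply_same, one_mul, sz_add]
      exact ev_conj (s1 _ _ n1) (s3 _ _ _ n1 (ab _ _) (ab _ _)) (ev k l) (ev j l)
    · rw [transvection_mul_apply_of_ne _ _ _ _ hki]
      exact ev_comm (s2 _ _ _ _ (ab _ _) n1 (ab _ _).symm (aa _ _ hki)) (ev k l)
  have hcol : ∀ M ∈ T, ∀ i j, i ≠ j → M * transvection i j 1 ∈ T := fun M hM i j hij => by
    obtain ⟨v, hv, h0, ev⟩ := (hT M).1 hM
    have n1 := bb j i hij.symm
    obtain ⟨m1, m2⟩ := move (s1 _ _ n1) (hk _ _ n1) hv h0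
    refine (hT _).2 ⟨_, m1, m2, fun k l => ?_⟩
    by_cases hlj : l = j
    · subst hlj
      rw [mul_transvection_apply_same, one_mul, sz_add]
      refine ev_conj (s1 _ _ n1) ?_ (ev k l) (ev k i)
      have t1 := s3 _ _ _ (ab k l) n1 (ab k i)
      have t2 := (s2 _ _ _ _ (ab k l) (ab k i) (ab k l).symm (ab k i)).eq
      calc s (β l) (β i) * s (α k) (β l) * s (β l) (β i)
          = s (β l) (β i) * (s (α k) (β l) * s (β l) (β i) * s (α k) (β l)) * s (α k) (β l) := by
            rw [mul_assoc _ (_ * _ * _), mul_assoc (_ * _), s1 _ _ (ab k l), mul_one, mul_assoc]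
        _ = s (α k) (β l) * s (α k) (β i) := by
            rw [t1, ← mul_assoc, s1 _ _ n1, one_mul, t2]
    · rw [mul_transvection_apply_of_ne _ _ _ _ hlj]
      exact ev_comm (s2 _ _ _ _ (ab _ _) n1 (bb _ _ hlj) (ab _ _)) (ev k l)
  have hsup := JE_iSup (x := x) (S := univ) (Q := Q)
    (fun p _ v _ => by rw [← End.mul_apply, s1 _ _ (ab _ _), End.one_apply])
    (fun p _ q _ v _ => by
      rw [← End.mul_apply, (s2 _ _ _ _ (ab _ _) (ab _ _) (ab _ _).symm (ab _ _)).eq, End.mul_apply])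
    fun p _ => hk _ _ (ab _ _)
  have key : Q ≤ End.eigenspace (s a b) 1 := by
    rw [← hsup]
    refine iSup_le fun I v hv => ?_
    have ev := mem_JE'.1 hv.2
    by_cases hI : (i0, i0) ∈ I.1
    · by_cases h0 : v = 0
      · rw [h0]
        exact Submodule.zero_mem _
      · exfalso
        have hM : (Matrix.of fun i j => if (i, j) ∈ I.1 then 1 else 0) ∈ T :=
          (hT _).2 ⟨v, hv.1, h0, fun i j => by
            have := ev (i, j) (mem_univ _)
            by_cases k : (i, j) ∈ I.1 <;> simpa [sgn, sz, k] using this⟩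
        have := core hr hcol hM (i0 := i0) (j0 := i0) (by simp [hI])
        rw [Fintype.card_fin] at this
        omega
    · have := ev (i0, i0) (mem_univ _)
      rw [End.mem_eigenspace_iff, ← ha, ← hb]
      simpa [sgn, hI] using this
  intro v hv
  simpa using End.mem_eigenspace_iff.1 (key hv)

end Pool.Agent.MP_3ce0a0_al.H33
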